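import Mathlib

set_option autoImplicit false

namespace Pool.Agent.H.MP_3933ef_co

variable {V A : Type} [Fintype V] [DecidableEq V] [Fintype A] [DecidableEq A]

/-- arcs of the digraph with arc set `A` (tail `t`, head `h`) leaving `U` -/
def outA (t h : A → V) (U : Finset V) : Finset A := Finset.univ.filter (fun a => t a ∈ U ∧ h a ∉ U)

/-- arcs entering `U` -/
def inA (t h : A → V) (U : Finset V) : Finset A := Finset.univ.filter (fun a => t a ∉ U ∧ h a ∈ U)

/-- the underlying undirected multigraph is `m`-edge-connected -/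
def EdgeConn (t h : A → V) (m : ℕ) : Prop :=
  ∀ U : Finset V, U.Nonempty → U ≠ Finset.univ → m ≤ (outA t h U).card + (inA t h U).card

/-- `C` is a dicut -/
def IsDicut (t h : A → V) (C : Finset A) : Prop :=
  ∃ U : Finset V, U.Nonempty ∧ U ≠ Finset.univ ∧ inA t h U = ∅ ∧ C = outA t h U

/-- `J` is an `m`-dijoin -/
def Dijoin (t h : A → V) (m : ℕ) (J : Finset A) : Prop :=
  ∀ C, IsDicut t h C → m ≤ (J ∩ C).card

/-- `J` is a `k`-arc-connected flip: after reversing the arcs of `J`, at least `k` arcs enter
every nonempty proper vertex set -/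
def Flip (t h : A → V) (k : ℕ) (J : Finset A) : Prop :=
  ∀ U : Finset V, U.Nonempty → U ≠ Finset.univ →
    k ≤ (outA t h U ∩ J).card + (inA t h U \ J).card

end Pool.Agent.H.MP_3933ef_co
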